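import Mathlib
import Pool.Agent.TH888.C.Val

set_option autoImplicit false

/-!
# Curve families on one window
-/

namespace Pool.Agent.J6H88.PC

open Finset Filter Topology MeasureTheory
open Pool.Agent.TH888.R
open Pool.Agent.TH888.C
open Pool.Agent.W66C
open Pool.Agent.W66X (int_bdd)
open Pool.Agent.H447R2.ML (Loc C1 ff_eq_floor)
open Pool.Agent.H305R2 (roughPart bounds gg LL measurable_gg abs_gg_le abs_gg_le_one LL_nonneg LL_cont
  LL_le_one ff NN measurable_ff ff_nonneg ff_le_one integrableOn_ff integrableOn_gg log_nat_tendsto)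

/-- **A curve family is a system on a window.** -/
theorem sys_loc {a0 b0 b1 a1 D : ℝ} (ha0 : 0 < a0) (h0 : a0 < b0) (hb01 : b0 < b1) (h1' : b1 < a1)
    (hD : 0 ≤ D) {h1 : ℝ → ℝ} {y y' y'' : ℕ → ℝ → ℝ}
    (hym : ∀ p, Measurable (y p))
    (hev : ∀ᶠ p : ℕ in atTop, Cur a0 a1 D h1 p (y p) (y' p) (y'' p)) :
    Sys (volume.restrict (Set.Ioc b0 b1)) (fun p t => ff p (y p t)) (fun p t => LL p (y p t))
      (fun t => Real.exp Real.eulerMascheroniConstant / t) := by
  have hb0' : 0 < b0 := by linarith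
  obtain ⟨P0, hP0⟩ := eventually_atTop.1 hev
  obtain ⟨κ, K1, hκ, hK1, P1, hfar⟩ := far_loc ha0 hD h0 hb01 h1'
  obtain ⟨K2, hK2, P2, hmid⟩ := mid_loc ha0 hD h0 hb01 h1'
  obtain ⟨K3, hK3, P3, hnear⟩ := near_c (h1 := h1) (h2 := h1) ha0 hD h0 hb01 h1'
    (by norm_num : (0 : ℝ) < 3 / 4) (by norm_num)
  obtain ⟨K4, hK4, P4, hP43, hcor⟩ := corr_le ha0 hD h0 hb01 h1'
  obtain ⟨K5, hK5, P5, hP53, hone⟩ := one_loc ha0 hD h0 hb01 h1'
  obtain ⟨P7, h7⟩ := eventually_atTop.1 (log_nat_tendsto.eventually_ge_atTop κ)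
  obtain ⟨K8, hK8, hev8⟩ := LL_rate_t hb0' D
  obtain ⟨P8, h8⟩ := eventually_atTop.1 hev8
  have hmem : ∀ᵐ t ∂(volume.restrict (Set.Ioc b0 b1)), t ∈ Set.Ioc b0 b1 :=
    ae_restrict_mem measurableSet_Ioc
  have hG0 : 0 < Real.exp Real.eulerMascheroniConstant := Real.exp_pos _
  refine ⟨fun q => (measurable_ff q).comp (hym q), fun q => (LL_cont q).measurable.comp (hym q),
    fun q t => ff01 q _, fun q t => LL_nonneg q _, fun q t => LL_le_one q _, ?_, ?_, ?_, ?_⟩
  · refine ⟨K8, hK8.le, P0 + P8, ?_⟩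
    filter_upwards [hmem] with t ht q hq hqp
    have e1 := (hP0 q (by omega)).loc.near t ⟨by linarith [ht.1], by linarith [ht.2]⟩
    have e3 := h8 q (by omega) t ht.1.le (y q t) e1
    unfold wt
    rw [mul_one_div]
    exact e3
  · refine ⟨Real.exp Real.eulerMascheroniConstant / b1, Real.exp Real.eulerMascheroniConstant / b0,
      div_pos hG0 (by linarith), ?_⟩
    filter_upwards [hmem] with t ht
    have ht0 : 0 < t := by linarith [ht.1]
    exact ⟨div_le_div_of_nonneg_left hG0.le ht0 ht.2, div_le_div_of_nonneg_left hG0.le hb0' ht.1.le⟩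
  · set Q := P0 + P1 + P2 + P3 + P4 + P5 + P7 with hQ
    set J : ℕ → ℕ → ℝ := fun p q => if Q ≤ p then
      ∫ t in Set.Ioc b0 b1, gg p (y p t) * gg q (y q t) else 0 with hJ
    have hw0 : ∀ m : ℕ, 0 ≤ Real.log m / m := fun m =>
      div_nonneg (Real.log_natCast_nonneg m) (Nat.cast_nonneg m)
    set K := K1 + K2 + (K3 + 2 * K4) with hK
    obtain ⟨C, hC, P', hP', hP3', hrow⟩ := row_set (κ := κ) (K := K) hκ (by positivity)
      (b := 2) le_rfl J Q
      (by
        intro q hq p hp
        have hr : 0 ≤ Real.log q / (q : ℝ) ^ 2 := div_nonneg (Real.log_natCast_nonneg q) (by positivity)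
        simp only [hJ]
        split_ifs with hpQ
        · have hlq := h7 q (by omega)
          have hq0 : (0 : ℝ) < q := by exact_mod_cast (by omega : 0 < q)
          have hpq : p ≤ q := by
            have hl : 0 < Real.log q := lt_of_lt_of_le hκ hlq
            have : (p : ℝ) ≤ q := by
              refine hp.trans ?_
              rw [div_le_iff₀ hl]
              nlinarith
            exact_mod_cast this
          refine (hfar p (by omega) q hpq _ _ _ _ (hP0 p (by omega)).loc (hP0 q (by omega)).loc hp).trans ?_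
          exact mul_le_mul_of_nonneg_right (by rw [hK]; linarith) hr
        · rw [abs_zero]; positivity)
      (by
        intro p hp q hq
        simp only [hJ]
        rw [if_pos hp]
        refine (hmid p (by omega) q hq _ _ _ _ (hP0 p (by omega)).loc (hP0 q (by omega)).loc).trans ?_
        exact mul_le_mul_of_nonneg_right (by rw [hK]; linarith) (mul_nonneg (hw0 p) (hw0 q)))
      (by
        intro p hp q hq hq2
        simp only [hJ]
        rw [if_pos hp]
        have e1 := hcor p (by omega) q (by omega) _ _ _ _ (hP0 p (by omega)).loc (hP0 q (by omega)).loc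
        have e2 := hnear p (by omega) q hq.le hq2 _ _ _ _ _ _ (hP0 p (by omega)) (hP0 q (by omega))
          (fun t ht => by
            have h2 := abs_le.1 ((hP0 p (by omega)).slope t ht)
            have h3 := abs_le.1 ((hP0 q (by omega)).slope t ht)
            have h4 : (p : ℝ) + 1 ≤ q := by exact_mod_cast hq
            linarith [h2.1, h2.2, h3.1, h3.2])
        have hp2 : (2 : ℝ) ≤ p := by exact_mod_cast (by omega : 2 ≤ p)
        have hp0 : (0 : ℝ) < p := by linarith
        have hpq' : (p : ℝ) ≤ q := by exact_mod_cast hq.le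
        have hwq : Real.log q / q ≤ 2 * (Real.log p / p) := by
          have hq2' : (q : ℝ) ≤ p * p := by
            have : (q : ℝ) ≤ 2 * p := by exact_mod_cast hq2
            nlinarith
          have hlq : Real.log q ≤ 2 * Real.log p := by
            calc Real.log q ≤ Real.log (p * p) := Real.log_le_log (by linarith) hq2'
              _ = 2 * Real.log p := by rw [Real.log_mul hp0.ne' hp0.ne']; ring
          have hlp := Real.log_natCast_nonneg p
          calc Real.log q / q ≤ (2 * Real.log p) / p := div_le_div₀ (by positivity) hlq hp0 hpq'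
            _ = _ := by ring
        have hwp := hw0 p
        have e3 : K4 * ((Real.log p / p) * (Real.log q / q)) ≤ 2 * K4 * (Real.log p / p) ^ 2 := by
          calc K4 * ((Real.log p / p) * (Real.log q / q)) ≤
                K4 * ((Real.log p / p) * (2 * (Real.log p / p))) := by gcongr
            _ = _ := by ring
        have e4 : 0 ≤ ((2 : ℝ) ^ (q - p))⁻¹ * (Real.log p / p) := by positivity
        have e5 : 0 ≤ (Real.log p / p) ^ 2 := sq_nonneg _
        push_cast
        rw [hK]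
        calc _ ≤ _ := e1
          _ ≤ K3 * (Real.log p / p) ^ 2 + 2 * K4 * (Real.log p / p) ^ 2 := add_le_add e2 e3
          _ ≤ _ := by nlinarith [mul_nonneg hK1.le e5, mul_nonneg hK2.le e5, mul_nonneg hK1.le e4,
              mul_nonneg hK2.le e4, mul_nonneg hK4.le e4, mul_nonneg hK3.le e4])
    refine ⟨κ, C + K5, hκ, by positivity, P', hP3', fun q hq _ => ?_, fun q hq _ T hT => ?_⟩
    · have e1 := ((hone q (by omega)).2 _ _ (hP0 q (by omega)).loc).2.2.2
      have e2 : ∫ t in Set.Ioc b0 b1, (gg q (y q t)) ^ 2 ≤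
          ∫ t in Set.Ioc b0 b1, |gg q (y q t)| := by
        have hmg : Measurable (fun t : ℝ => gg q (y q t)) := (measurable_gg q).comp (hym q)
        refine setIntegral_mono_on ?_ ?_ measurableSet_Ioc fun t _ => ?_
        · refine int_bdd (hmg.pow_const 2) (M := 1) (fun t => ?_) _ _
          rw [abs_pow]
          exact pow_le_one₀ (abs_nonneg _) (abs_gg_le_one _ _)
        · refine int_bdd hmg.abs (M := 1) (fun t => ?_) _ _
          rw [abs_abs]
          exact abs_gg_le_one _ _
        · have h1 := abs_gg_le_one q (y q t)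
          have h2 := abs_nonneg (gg q (y q t))
          rw [← sq_abs]
          nlinarith
      refine (e2.trans e1).trans ?_
      unfold wt
      exact mul_le_mul_of_nonneg_right (by linarith) (hw0 q)
    · have hsame : ∑ p ∈ T, |∫ t in Set.Ioc b0 b1, gg p (y p t) * gg q (y q t)| =
          ∑ p ∈ T, |J p q| := by
        refine Finset.sum_congr rfl fun p hp => ?_
        have := (hT p hp).2.1
        simp only [hJ]
        rw [if_pos (hP'.trans this)]
      have e1 := hrow q hq T hT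
      rw [← hsame] at e1
      refine e1.trans ?_
      unfold wt
      refine mul_le_mul_of_nonneg_right (by linarith) ?_
      have : 0 ≤ ∑ p ∈ T.filter (fun p : ℕ => κ * q / Real.log q < (p : ℝ)), Real.log p / (p : ℝ) :=
        Finset.sum_nonneg fun p _ => hw0 p
      exact mul_nonneg (hw0 q) (by linarith)
  · refine ⟨K5, hK5.le, P0 + P5, fun q hq _ => ?_⟩
    exact ((hone q (by omega)).2 _ _ (hP0 q (by omega)).loc).2.2.1


/-- for almost every parameter the values are not integers -/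
lemma ne_nat_loc {a0 a1 D : ℝ} (hD : 0 ≤ D) {h1 : ℝ → ℝ} {y y' y'' : ℕ → ℝ → ℝ}
    (hev : ∀ᶠ p : ℕ in atTop, Cur a0 a1 D h1 p (y p) (y' p) (y'' p)) :
    ∀ᵐ t : ℝ, t ∈ Set.Icc a0 a1 → ∃ P : ℕ, ∀ p ≥ P, ∀ m : ℕ, Real.exp (y p t) ≠ m := by
  have hl : ∀ᶠ p : ℕ in atTop, 3 * D < p := tendsto_natCast_atTop_atTop.eventually_gt_atTop _
  obtain ⟨P, hP⟩ := eventually_atTop.1 (hev.and hl)
  set I := Set.Icc a0 a1 with hI
  have hnull : volume (⋃ p : ℕ, ⋃ m : ℕ, {t : ℝ | t ∈ I ∧ P ≤ p ∧ Real.exp (y p t) = m}) = 0 := by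
    refine Set.Countable.measure_zero ?_ volume
    refine Set.countable_iUnion fun p => Set.countable_iUnion fun m => ?_
    refine Set.Subsingleton.countable ?_
    rintro s ⟨hs, hp, hs2⟩ t ⟨ht, _, ht2⟩
    have h5 : y p s = y p t := Real.exp_injective (by rw [hs2, ht2])
    exact ((hP p hp).1.loc.strict (hP p hp).2 hD).injOn hs ht h5
  rw [← compl_mem_ae_iff] at hnull
  filter_upwards [hnull] with t ht htI
  refine ⟨P, fun p hp m hm => ht ?_⟩
  simp only [Set.mem_iUnion]
  exact ⟨p, m, htI, hp, hm⟩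

/-- **The statements on a window.** -/
theorem pt_loc {a0 b0 b1 a1 D : ℝ} (ha0 : 0 < a0) (h0 : a0 < b0) (hb01 : b0 < b1) (h1' : b1 < a1)
    (hD : 0 ≤ D) {h1 : ℝ → ℝ} {y y' y'' : ℕ → ℝ → ℝ}
    (hym : ∀ p, Measurable (y p))
    (hev : ∀ᶠ p : ℕ in atTop, Cur a0 a1 D h1 p (y p) (y' p) (y'' p)) {val : ℕ → ℝ → ℝ}
    (hval : ∀ t ∈ Set.Icc a0 a1, ∀ᶠ p : ℕ in atTop, p.Prime → 0 < val p t ∧ Real.log (val p t) = y p t)
    (S : Set ℕ) : ∀ᵐ t ∂(volume.restrict (Set.Ioc b0 b1)),
      Pt (fun p => ⌊val p t⌋₊) (Real.exp Real.eulerMascheroniConstant / t) S := by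
  have hfin : IsFiniteMeasure (volume.restrict (Set.Ioc b0 b1)) := ⟨by simp⟩
  have hmem : ∀ᵐ t ∂(volume.restrict (Set.Ioc b0 b1)), t ∈ Set.Ioc b0 b1 :=
    ae_restrict_mem measurableSet_Ioc
  refine (sys_loc ha0 h0 hb01 h1' hD hym hev).pt (s := fun t p => ⌊val p t⌋₊) ?_ S
  filter_upwards [ae_restrict_of_ae (ne_nat_loc hD hev), hmem] with t h3 htm
  have htI : t ∈ Set.Icc a0 a1 := ⟨by linarith [htm.1], by linarith [htm.2]⟩
  obtain ⟨P1, hP1⟩ := h3 htI
  obtain ⟨P2, hP2⟩ := eventually_atTop.1 (hval t htI)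
  refine ⟨P1 + P2, fun p hp hpp => ?_⟩
  obtain ⟨h4, h5⟩ := hP2 p (by omega) hpp
  rw [← h5]
  refine ff_eq_floor h4 fun m hm => hP1 p (by omega) m ?_
  rw [← h5, Real.exp_log h4]
  exact hm

end Pool.Agent.J6H88.PC
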