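import Mathlib
import Pool.Agent.J6H88.PC.Loc

set_option autoImplicit false

/-!
# The curves `b = φ (a)` as families of exponents
-/

namespace Pool.Agent.J6H88.PC

open Finset Filter Topology MeasureTheory
open Pool.Agent.TH888.R
open Pool.Agent.W66C
open Pool.Agent.W66X (ae_of_exp')
open Pool.Agent.H447R2.ML (Loc)

lemma der_open {W : Set ℝ} (hW : IsOpen W) {f : ℝ → ℝ} (h : ContDiffOn ℝ 2 f W) :
    (∀ x ∈ W, HasDerivAt f (deriv f x) x) ∧ (∀ x ∈ W, HasDerivAt (deriv f) (deriv (deriv f) x) x) ∧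
    ContinuousOn f W ∧ ContinuousOn (deriv f) W ∧ ContinuousOn (deriv (deriv f)) W := by
  have h1 : ContDiffOn ℝ 1 (deriv f) W := h.deriv_of_isOpen hW (by norm_num)
  have h2 : ContDiffOn ℝ 0 (deriv (deriv f)) W := h1.deriv_of_isOpen hW (by norm_num)
  refine ⟨fun x hx => ?_, fun x hx => ?_, h.continuousOn, h1.continuousOn, h2.continuousOn⟩
  · exact ((h.differentiableOn (by norm_num)).differentiableAt (hW.mem_nhds hx)).hasDerivAt
  · exact ((h1.differentiableOn (by norm_num)).differentiableAt (hW.mem_nhds hx)).hasDerivAt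

/-- the exponents of a curve -/
noncomputable def yv (ψ H : ℝ → ℝ) (p : ℕ) (t : ℝ) : ℝ := p * t + Real.log (1 - ψ t ^ p) + H t

open Classical in
/-- the exponents of a curve, continued by zero -/
noncomputable def yw (W : Set ℝ) (ψ H : ℝ → ℝ) (p : ℕ) : ℝ → ℝ := W.piecewise (yv ψ H p) (fun _ => 0)

lemma pow_lt {x : ℝ} (hx : |x| < 1) {p : ℕ} (hp : p ≠ 0) : 0 < 1 - x ^ p := by
  have h1 : |x ^ p| < 1 := by
    rw [abs_pow]
    exact pow_lt_one₀ (abs_nonneg _) hx hp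
  have := (abs_lt.1 h1).2
  linarith

lemma yw_meas {W : Set ℝ} (hW : IsOpen W) {ψ H : ℝ → ℝ} (hψ : ContinuousOn ψ W)
    (hH : ContinuousOn H W) (h1 : ∀ t ∈ W, |ψ t| < 1) (p : ℕ) : Measurable (yw W ψ H p) := by
  classical
  unfold yw
  rcases Nat.eq_zero_or_pos p with h0 | h0
  · subst h0
    refine ContinuousOn.measurable_piecewise ?_ continuousOn_const hW.measurableSet
    have : yv ψ H 0 = H := by
      funext t
      simp [yv]
    rw [this]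
    exact hH
  · refine ContinuousOn.measurable_piecewise ?_ continuousOn_const hW.measurableSet
    unfold yv
    refine ContinuousOn.add (ContinuousOn.add (by fun_prop) ?_) hH
    refine ContinuousOn.log (continuousOn_const.sub (hψ.pow p)) fun t ht => ?_
    exact (pow_lt (h1 t ht) (by omega)).ne'

lemma yw_eq {W : Set ℝ} {ψ H : ℝ → ℝ} (p : ℕ) {t : ℝ} (ht : t ∈ W) : yw W ψ H p t = yv ψ H p t := by
  classical
  unfold yw
  exact Set.piecewise_eq_of_mem _ _ _ ht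

/-- the powers tend to zero, with the first two derivatives -/
lemma small {ρ M : ℝ} (hρ0 : 0 < ρ) (hρ1 : ρ < 1) :
    ∀ᶠ p : ℕ in atTop, 2 ≤ p ∧ (p : ℝ) ^ 2 * ρ ^ (p - 1 - 1) * (1 + M) ^ 2 ≤ 1 / 16 := by
  have h1 := tendsto_pow_const_mul_const_pow_of_abs_lt_one 2 (r := ρ) (by rw [abs_of_pos hρ0]; exact hρ1)
  have h2 := (h1.mul_const ((ρ ^ 2)⁻¹ * (1 + M) ^ 2))
  rw [zero_mul] at h2
  have h3 : ∀ᶠ p : ℕ in atTop, (p : ℝ) ^ 2 * ρ ^ p * ((ρ ^ 2)⁻¹ * (1 + M) ^ 2) < 1 / 16 :=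
    h2.eventually (gt_mem_nhds (by norm_num))
  filter_upwards [h3, eventually_ge_atTop 2] with p h4 h5
  refine ⟨h5, ?_⟩
  have h6 : ρ ^ p = ρ ^ (p - 1 - 1) * ρ ^ 2 := by
    rw [← pow_add]
    congr 1
    omega
  rw [h6] at h4
  have h7 : (p : ℝ) ^ 2 * (ρ ^ (p - 1 - 1) * ρ ^ 2) * ((ρ ^ 2)⁻¹ * (1 + M) ^ 2) =
      (p : ℝ) ^ 2 * ρ ^ (p - 1 - 1) * (1 + M) ^ 2 := by
    field_simp
  rw [h7] at h4
  exact h4.le

lemma pw_bounds {ρ M x x1 x2 : ℝ} (hρ0 : 0 < ρ) (hρ1 : ρ < 1) (hM : 0 ≤ M) (hx : |x| ≤ ρ)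
    (hx1 : |x1| ≤ M) (hx2 : |x2| ≤ M) {p : ℕ} (hp : 2 ≤ p) :
    |x ^ p| ≤ (p : ℝ) ^ 2 * ρ ^ (p - 1 - 1) * (1 + M) ^ 2 ∧
    |(p : ℝ) * x ^ (p - 1) * x1| ≤ (p : ℝ) ^ 2 * ρ ^ (p - 1 - 1) * (1 + M) ^ 2 ∧
    |(p : ℝ) * (((p - 1 : ℕ) : ℝ) * x ^ (p - 1 - 1) * x1) * x1 + (p : ℝ) * x ^ (p - 1) * x2| ≤
      (p : ℝ) ^ 2 * ρ ^ (p - 1 - 1) * (1 + M) ^ 2 := by
  have hp2 : (2 : ℝ) ≤ p := by exact_mod_cast hp
  have hr := pow_pos hρ0 (p - 1 - 1)
  have e1 : |x| ^ (p - 1 - 1) ≤ ρ ^ (p - 1 - 1) := pow_le_pow_left₀ (abs_nonneg _) hx _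
  have e2 : |x| ^ (p - 1) ≤ ρ ^ (p - 1 - 1) := by
    refine (pow_le_pow_left₀ (abs_nonneg _) hx _).trans ?_
    exact pow_le_pow_of_le_one hρ0.le hρ1.le (by omega)
  have e3 : |x| ^ p ≤ ρ ^ (p - 1 - 1) := by
    refine (pow_le_pow_left₀ (abs_nonneg _) hx _).trans ?_
    exact pow_le_pow_of_le_one hρ0.le hρ1.le (by omega)
  have hc : ((p - 1 : ℕ) : ℝ) = p - 1 := by
    rw [Nat.cast_sub (by omega)]
    simp
  set R := ρ ^ (p - 1 - 1) with hR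
  have hpp : (p : ℝ) ≤ (p : ℝ) ^ 2 := by nlinarith
  have h1pp : (1 : ℝ) ≤ (p : ℝ) ^ 2 := by nlinarith
  have hM1 : (1 : ℝ) ≤ (1 + M) ^ 2 := by nlinarith
  have hMM : M ≤ (1 + M) ^ 2 := by nlinarith
  refine ⟨?_, ?_, ?_⟩
  · rw [abs_pow]
    calc |x| ^ p ≤ 1 * R * 1 := by linarith
      _ ≤ _ := by gcongr
  · rw [abs_mul, abs_mul, abs_pow, abs_of_nonneg (by positivity : (0 : ℝ) ≤ (p : ℝ))]
    calc (p : ℝ) * |x| ^ (p - 1) * |x1| ≤ p * R * M := by gcongr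
      _ ≤ _ := by gcongr
  · refine (abs_add_le _ _).trans ?_
    rw [abs_mul, abs_mul, abs_mul, abs_mul, abs_mul, abs_mul, abs_pow, abs_pow,
      abs_of_nonneg (by positivity : (0 : ℝ) ≤ (p : ℝ)), hc, abs_of_nonneg (by linarith : (0 : ℝ) ≤ (p : ℝ) - 1)]
    have f1 : (p : ℝ) * ((p - 1) * |x| ^ (p - 1 - 1) * |x1|) * |x1| ≤ p * ((p - 1) * R * M) * M := by
      have : (0 : ℝ) ≤ (p : ℝ) - 1 := by linarith
      gcongr
    have f2 : (p : ℝ) * |x| ^ (p - 1) * |x2| ≤ p * R * M := by gcongr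
    have f3 : p * ((p - 1) * R * M) * M + p * R * M ≤ (p : ℝ) ^ 2 * R * (1 + M) ^ 2 := by
      have g1 : p * ((p - 1) * R * M) * M + p * R * M = R * ((p : ℝ) * (p - 1) * M ^ 2 + p * M) := by ring
      have g2 : (p : ℝ) ^ 2 * R * (1 + M) ^ 2 = R * ((p : ℝ) ^ 2 * (1 + M) ^ 2) := by ring
      rw [g1, g2]
      refine mul_le_mul_of_nonneg_left ?_ hr.le
      have g3 : (p : ℝ) * (p - 1) * M ^ 2 ≤ (p : ℝ) ^ 2 * M ^ 2 := by
        refine mul_le_mul_of_nonneg_right ?_ (sq_nonneg _)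
        nlinarith
      have g4 : (p : ℝ) * M ≤ (p : ℝ) ^ 2 * M := mul_le_mul_of_nonneg_right hpp hM
      nlinarith [mul_nonneg (sq_nonneg (p : ℝ)) hM]
    linarith

/-- **The exponents of a curve are a curve family on every compact interval.** -/
theorem fam_open {W : Set ℝ} (hW : IsOpen W) {ψ H : ℝ → ℝ} (hψ : ContDiffOn ℝ 2 ψ W)
    (hH : ContDiffOn ℝ 2 H W) (h1 : ∀ t ∈ W, |ψ t| < 1) {a0 a1 : ℝ}
    (hsub : Set.Icc a0 a1 ⊆ W) : ∃ D : ℝ, 0 ≤ D ∧ ∃ y' y'' : ℕ → ℝ → ℝ,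
      ∀ᶠ p : ℕ in atTop, Cur a0 a1 D (deriv H) p (yw W ψ H p) (y' p) (y'' p) := by
  obtain ⟨k1, k2, k3, k4, k5⟩ := der_open hW hψ
  obtain ⟨l1, l2, l3, l4, l5⟩ := der_open hW hH
  set x1 := deriv ψ with hx1
  set x2 := deriv (deriv ψ) with hx2
  set H1 := deriv H with hH1
  set H2 := deriv (deriv H) with hH2
  obtain ⟨ρ, hρ0, hρ1, hρ⟩ : ∃ ρ : ℝ, 0 < ρ ∧ ρ < 1 ∧ ∀ t ∈ Set.Icc a0 a1, |ψ t| ≤ ρ := by
    rcases (Set.Icc a0 a1).eq_empty_or_nonempty with he | hne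
    · exact ⟨1 / 2, by norm_num, by norm_num, fun t ht => by rw [he] at ht; exact absurd ht (Set.notMem_empty _)⟩
    · obtain ⟨t0, ht0, hmax⟩ := isCompact_Icc.exists_isMaxOn hne (k3.mono hsub).abs
      refine ⟨max (1 / 2) |ψ t0|, by positivity, max_lt (by norm_num) (h1 t0 (hsub ht0)), fun t ht => ?_⟩
      exact (hmax ht).trans (le_max_right _ _)
  obtain ⟨m1, hm1⟩ := isCompact_Icc.exists_bound_of_continuousOn (k4.mono hsub)
  obtain ⟨m2, hm2⟩ := isCompact_Icc.exists_bound_of_continuousOn (k5.mono hsub)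
  obtain ⟨b0, hb0⟩ := isCompact_Icc.exists_bound_of_continuousOn (l3.mono hsub)
  obtain ⟨b1, hb1⟩ := isCompact_Icc.exists_bound_of_continuousOn (l4.mono hsub)
  obtain ⟨b2, hb2⟩ := isCompact_Icc.exists_bound_of_continuousOn (l5.mono hsub)
  set M := |m1| + |m2| with hM
  set B := |b0| + |b1| + |b2| with hB
  have hM0 : 0 ≤ M := by positivity
  have hB0 : 0 ≤ B := by positivity
  refine ⟨1 + B, by positivity, fun p t => p + -(p * ψ t ^ (p - 1) * x1 t) / (1 - ψ t ^ p) + H1 t,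
    fun p t => (-(p * (((p - 1 : ℕ) : ℝ) * ψ t ^ (p - 1 - 1) * x1 t) * x1 t + p * ψ t ^ (p - 1) * x2 t) *
      (1 - ψ t ^ p) - -(p * ψ t ^ (p - 1) * x1 t) * (-(p * ψ t ^ (p - 1) * x1 t))) / (1 - ψ t ^ p) ^ 2 + H2 t,
    ?_⟩
  filter_upwards [small (M := M) hρ0 hρ1] with p hp
  obtain ⟨hp2, hpE⟩ := hp
  set E := (p : ℝ) ^ 2 * ρ ^ (p - 1 - 1) * (1 + M) ^ 2 with hE
  have hE0 : 0 ≤ E := by rw [hE]; positivity
  have hbd : ∀ t ∈ Set.Icc a0 a1, |ψ t ^ p| ≤ E ∧ |(p : ℝ) * ψ t ^ (p - 1) * x1 t| ≤ E ∧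
      |(p : ℝ) * (((p - 1 : ℕ) : ℝ) * ψ t ^ (p - 1 - 1) * x1 t) * x1 t + (p : ℝ) * ψ t ^ (p - 1) * x2 t| ≤ E := by
    intro t ht
    refine pw_bounds hρ0 hρ1 hM0 (hρ t ht) ?_ ?_ hp2
    · have := hm1 t ht
      rw [Real.norm_eq_abs] at this
      have h3 := le_abs_self m1
      have h4 := abs_nonneg m2
      linarith
    · have := hm2 t ht
      rw [Real.norm_eq_abs] at this
      have h3 := le_abs_self m2
      have h4 := abs_nonneg m1
      linarith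
  have hHb : ∀ t ∈ Set.Icc a0 a1, |H t| ≤ B ∧ |H1 t| ≤ B ∧ |H2 t| ≤ B := by
    intro t ht
    have c0 := hb0 t ht
    have c1 := hb1 t ht
    have c2 := hb2 t ht
    rw [Real.norm_eq_abs] at c0 c1 c2
    have d0 := le_abs_self b0
    have d1 := le_abs_self b1
    have d2 := le_abs_self b2
    have e0 := abs_nonneg b0
    have e1 := abs_nonneg b1
    have e2 := abs_nonneg b2
    refine ⟨by linarith, by linarith, by linarith⟩
  have hden : ∀ t ∈ Set.Icc a0 a1, 15 / 16 ≤ 1 - ψ t ^ p ∧ 1 - ψ t ^ p ≤ 17 / 16 := by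
    intro t ht
    have h3 := abs_le.1 (hbd t ht).1
    constructor <;> linarith [h3.1, h3.2]
  have hfrac : ∀ t ∈ Set.Icc a0 a1, |-((p : ℝ) * ψ t ^ (p - 1) * x1 t) / (1 - ψ t ^ p)| ≤ 1 / 8 := by
    intro t ht
    have h3 := (hden t ht).1
    have h4 := (hbd t ht).2.1
    rw [abs_div, abs_neg, abs_of_pos (by linarith : 0 < 1 - ψ t ^ p), div_le_iff₀ (by linarith)]
    linarith
  have hdv : ∀ t ∈ W, HasDerivAt (yv ψ H p) (p + -(p * ψ t ^ (p - 1) * x1 t) / (1 - ψ t ^ p) + H1 t) t := by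
    intro t ht
    have c1 : HasDerivAt (fun t => 1 - ψ t ^ p) (-(p * ψ t ^ (p - 1) * x1 t)) t :=
      ((k1 t ht).pow p).const_sub 1
    have c2 := c1.log (pow_lt (h1 t ht) (by omega)).ne'
    have c3 : HasDerivAt (fun t : ℝ => (p : ℝ) * t) (p : ℝ) t := by
      simpa using (hasDerivAt_id t).const_mul (p : ℝ)
    exact (c3.add c2).add (l1 t ht)
  refine ⟨⟨fun t ht => ?_, fun t ht => ?_, fun t ht => ?_⟩, fun t ht => ?_, ?_, fun t ht => ?_, fun t ht => ?_⟩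
  · rw [yw_eq p (hsub ht)]
    unfold yv
    have e : (p : ℝ) * t + Real.log (1 - ψ t ^ p) + H t - p * t = Real.log (1 - ψ t ^ p) + H t := by ring
    rw [e]
    refine (abs_add_le _ _).trans ?_
    have c1 := hden t ht
    have c2 := (hHb t ht).1
    have c3 : Real.log (1 - ψ t ^ p) ≤ 1 := by
      have := Real.log_le_sub_one_of_pos (by linarith : 0 < 1 - ψ t ^ p)
      linarith
    have c4 : -1 ≤ Real.log (1 - ψ t ^ p) := by
      have h5 := Real.one_sub_inv_le_log_of_pos (by linarith : 0 < 1 - ψ t ^ p)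
      have h6 : (1 - ψ t ^ p)⁻¹ ≤ 2 := by
        rw [inv_le_comm₀ (by linarith) (by norm_num)]
        linarith
      linarith
    have c5 : |Real.log (1 - ψ t ^ p)| ≤ 1 := abs_le.2 ⟨c4, c3⟩
    linarith
  · refine (hdv t (hsub ht)).congr_of_eventuallyEq ?_
    filter_upwards [hW.mem_nhds (hsub ht)] with s hs
    exact yw_eq p hs
  · have e : (p : ℝ) + -(p * ψ t ^ (p - 1) * x1 t) / (1 - ψ t ^ p) + H1 t - p =
        -(p * ψ t ^ (p - 1) * x1 t) / (1 - ψ t ^ p) + H1 t := by ring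
    change |(p : ℝ) + -(p * ψ t ^ (p - 1) * x1 t) / (1 - ψ t ^ p) + H1 t - p| ≤ 1 + B
    rw [e]
    refine (abs_add_le _ _).trans ?_
    linarith [hfrac t ht, (hHb t ht).2.1]
  · have htW := hsub ht
    have c1 : HasDerivAt (fun t => 1 - ψ t ^ p) (-(p * ψ t ^ (p - 1) * x1 t)) t :=
      ((k1 t htW).pow p).const_sub 1
    have c2 : HasDerivAt (fun t => ψ t ^ (p - 1)) (((p - 1 : ℕ) : ℝ) * ψ t ^ (p - 1 - 1) * x1 t) t :=
      (k1 t htW).pow (p - 1)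
    have c3 : HasDerivAt (fun t => (p : ℝ) * ψ t ^ (p - 1) * x1 t)
        (p * (((p - 1 : ℕ) : ℝ) * ψ t ^ (p - 1 - 1) * x1 t) * x1 t + p * ψ t ^ (p - 1) * x2 t) t :=
      (c2.const_mul (p : ℝ)).mul (k2 t htW)
    have c4 := c3.neg.div c1 (pow_lt (h1 t htW) (by omega)).ne'
    exact (c4.const_add (p : ℝ)).add (l2 t htW)
  · have q1 : ContinuousOn (fun t => 1 - ψ t ^ p) (Set.Icc a0 a1) :=
      continuousOn_const.sub ((k3.mono hsub).pow p)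
    have q2 : ContinuousOn (fun t => (p : ℝ) * ψ t ^ (p - 1) * x1 t) (Set.Icc a0 a1) :=
      (continuousOn_const.mul ((k3.mono hsub).pow _)).mul (k4.mono hsub)
    have q3 : ContinuousOn (fun t => (p : ℝ) * (((p - 1 : ℕ) : ℝ) * ψ t ^ (p - 1 - 1) * x1 t) * x1 t +
        p * ψ t ^ (p - 1) * x2 t) (Set.Icc a0 a1) := by
      refine ContinuousOn.add ?_ ((continuousOn_const.mul ((k3.mono hsub).pow _)).mul (k5.mono hsub))
      exact (continuousOn_const.mul ((continuousOn_const.mul ((k3.mono hsub).pow _)).mul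
        (k4.mono hsub))).mul (k4.mono hsub)
    refine ContinuousOn.add (ContinuousOn.div ?_ (q1.pow 2) fun t ht => ?_) (l5.mono hsub)
    · exact (q3.neg.mul q1).sub (q2.neg.mul q2.neg)
    · have := (hden t ht).1
      exact pow_ne_zero 2 (by linarith)
  · change |(p : ℝ) + -(p * ψ t ^ (p - 1) * x1 t) / (1 - ψ t ^ p) + H1 t - p - H1 t| ≤ 1 / 8
    have e : (p : ℝ) + -(p * ψ t ^ (p - 1) * x1 t) / (1 - ψ t ^ p) + H1 t - p - H1 t =
        -(p * ψ t ^ (p - 1) * x1 t) / (1 - ψ t ^ p) := by ring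
    rw [e]
    exact hfrac t ht
  · refine (abs_add_le _ _).trans ?_
    have c0 := (hHb t ht).2.2
    obtain ⟨c1, c2, c3⟩ := hbd t ht
    obtain ⟨c4, c5⟩ := hden t ht
    have c6 : |(-(p * (((p - 1 : ℕ) : ℝ) * ψ t ^ (p - 1 - 1) * x1 t) * x1 t + p * ψ t ^ (p - 1) * x2 t) *
      (1 - ψ t ^ p) - -(p * ψ t ^ (p - 1) * x1 t) * (-(p * ψ t ^ (p - 1) * x1 t))) / (1 - ψ t ^ p) ^ 2| ≤ 1 := by
      set u := (p : ℝ) * (((p - 1 : ℕ) : ℝ) * ψ t ^ (p - 1 - 1) * x1 t) * x1 t + p * ψ t ^ (p - 1) * x2 t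
      set v := (p : ℝ) * ψ t ^ (p - 1) * x1 t
      set w := 1 - ψ t ^ p
      have hw0 : 0 < w := by linarith
      rw [abs_div, div_le_iff₀ (abs_pos.2 (pow_ne_zero 2 hw0.ne')), abs_of_pos (by positivity : 0 < w ^ 2)]
      have d1 : |-u * w - -v * -v| ≤ |u| * w + |v| * |v| := by
        have e1 : -u * w - -v * -v = -(u * w + v * v) := by ring
        rw [e1, abs_neg]
        refine (abs_add_le _ _).trans ?_
        rw [abs_mul, abs_mul, abs_of_pos hw0]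
      have d2 : |u| * w ≤ 1 / 16 * (17 / 16) :=
        mul_le_mul (c3.trans hpE) c5 hw0.le (by norm_num)
      have d3 : |v| * |v| ≤ 1 / 16 * (1 / 16) :=
        mul_le_mul (c2.trans hpE) (c2.trans hpE) (abs_nonneg _) (by norm_num)
      have d4 : (15 / 16 : ℝ) * (15 / 16) ≤ w ^ 2 := by nlinarith
      linarith
    linarith

end Pool.Agent.J6H88.PC
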