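import Mathlib
import Pool.Agent.J6H88.PC.Fam

set_option autoImplicit false

/-!
# The statements along the curves `b = φ (a)`
-/

namespace Pool.Agent.J6H88.PC

open Finset Filter Topology MeasureTheory
open Pool.Agent.TH888.R
open Pool.Agent.W66C
open Pool.Agent.W66X (ae_of_exp')

/-- from windows to open sets -/
lemma ae_cover {W : Set ℝ} (hW : IsOpen W) {P : ℝ → Prop}
    (hwin : ∀ a0 b0 b1 a1 : ℝ, a0 < b0 → b0 < b1 → b1 < a1 → Set.Icc a0 a1 ⊆ W →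
      ∀ᵐ t ∂(volume.restrict (Set.Ioc b0 b1)), P t) : ∀ᵐ t : ℝ, t ∈ W → P t := by
  have h1 : ∀ a0 b0 b1 a1 : ℚ, ∀ᵐ t : ℝ, ((a0 : ℝ) < b0 ∧ (b0 : ℝ) < b1 ∧ (b1 : ℝ) < a1 ∧
      Set.Icc (a0 : ℝ) a1 ⊆ W) → t ∈ Set.Ioc (b0 : ℝ) b1 → P t := by
    intro a0 b0 b1 a1
    by_cases hc : (a0 : ℝ) < b0 ∧ (b0 : ℝ) < b1 ∧ (b1 : ℝ) < a1 ∧ Set.Icc (a0 : ℝ) a1 ⊆ W
    · have h2 := (ae_restrict_iff' measurableSet_Ioc).1 (hwin a0 b0 b1 a1 hc.1 hc.2.1 hc.2.2.1 hc.2.2.2)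
      filter_upwards [h2] with t ht _
      exact ht
    · exact Eventually.of_forall fun t h => absurd h hc
  have h2 := ae_all_iff.2 fun a0 => ae_all_iff.2 fun b0 => ae_all_iff.2 fun b1 => ae_all_iff.2 fun a1 =>
    h1 a0 b0 b1 a1
  filter_upwards [h2] with t ht htW
  obtain ⟨ε, hε, hb⟩ := Metric.isOpen_iff.1 hW t htW
  obtain ⟨a0, ha0, ha0'⟩ := exists_rat_btwn (show t - ε < t - ε / 2 by linarith)
  obtain ⟨b0, hb0, hb0'⟩ := exists_rat_btwn (show t - ε / 2 < t by linarith)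
  obtain ⟨b1, hb1, hb1'⟩ := exists_rat_btwn (show t < t + ε / 2 by linarith)
  obtain ⟨a1, ha1, ha1'⟩ := exists_rat_btwn (show t + ε / 2 < t + ε by linarith)
  refine ht a0 b0 b1 a1 ⟨by linarith, by linarith, by linarith, fun s hs => hb ?_⟩ ⟨hb0', hb1.le⟩
  rw [Metric.mem_ball, Real.dist_eq, abs_lt]
  constructor <;> linarith [hs.1, hs.2]

theorem pt_open {W : Set ℝ} (hW : IsOpen W) (hW0 : ∀ t ∈ W, 0 < t) {ψ H : ℝ → ℝ}
    (hψ : ContDiffOn ℝ 2 ψ W) (hH : ContDiffOn ℝ 2 H W) (h1 : ∀ t ∈ W, |ψ t| < 1) {val : ℕ → ℝ → ℝ}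
    (hval : ∀ t ∈ W, ∀ᶠ p : ℕ in atTop, p.Prime → 0 < val p t ∧ Real.log (val p t) = yv ψ H p t)
    (S : Set ℕ) : ∀ᵐ t : ℝ, t ∈ W →
      Pt (fun p => ⌊val p t⌋₊) (Real.exp Real.eulerMascheroniConstant / t) S := by
  refine ae_cover hW fun a0 b0 b1 a1 h01 h12 h23 hsub => ?_
  have ha0 : 0 < a0 := hW0 a0 (hsub ⟨le_rfl, by linarith⟩)
  obtain ⟨D, hD, y', y'', hev⟩ := fam_open hW hψ hH h1 hsub
  refine pt_loc ha0 h01 h12 h23 hD (fun p => yw_meas hW hψ.continuousOn hH.continuousOn h1 p) hev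
    (fun t ht => ?_) S
  filter_upwards [hval t (hsub ht)] with p hp hpp
  rw [yw_eq p (hsub ht)]
  exact hp hpp

/-- **The statements for `A x * (x ^ p - φ x ^ p)`, almost every real `x` in an open set.** -/
theorem pt_phi (S : Set ℕ) {U : Set ℝ} (hU : IsOpen U) {φ A : ℝ → ℝ} (hφ : ContDiffOn ℝ 2 φ U)
    (hA : ContDiffOn ℝ 2 A U) (hU1 : ∀ x ∈ U, 1 < x ∧ |φ x| < x) (hA0 : ∀ x ∈ U, 0 < A x) :
    ∀ᵐ x : ℝ, x ∈ U →
      Pt (fun p => ⌊A x * (x ^ p - φ x ^ p)⌋₊) (Real.exp Real.eulerMascheroniConstant / Real.log x) S := by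
  have hW : IsOpen (Real.exp ⁻¹' U) := hU.preimage Real.continuous_exp
  have hexp : ContDiffOn ℝ 2 Real.exp (Real.exp ⁻¹' U) := Real.contDiff_exp.contDiffOn
  have hmaps : Set.MapsTo Real.exp (Real.exp ⁻¹' U) U := fun t ht => ht
  have hψ : ContDiffOn ℝ 2 (fun t => φ (Real.exp t) / Real.exp t) (Real.exp ⁻¹' U) :=
    (hφ.comp hexp hmaps).div hexp fun t _ => (Real.exp_pos t).ne'
  have hH : ContDiffOn ℝ 2 (fun t => Real.log (A (Real.exp t))) (Real.exp ⁻¹' U) :=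
    (hA.comp hexp hmaps).log fun t ht => (hA0 _ ht).ne'
  have hlaw := pt_open hW (fun t ht => by
      have := (hU1 _ ht).1
      exact (Real.one_lt_exp_iff).1 this) hψ hH (fun t ht => by
      rw [abs_div, abs_of_pos (Real.exp_pos t), div_lt_one (Real.exp_pos t)]
      exact (hU1 _ ht).2)
    (val := fun p t => A (Real.exp t) * (Real.exp t ^ p - φ (Real.exp t) ^ p)) (fun t ht => by
      filter_upwards [eventually_ge_atTop 1] with p hp hpp
      have hE : 0 < Real.exp t ^ p := by positivity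
      have hAp := hA0 _ ht
      have h2 : |φ (Real.exp t) / Real.exp t| < 1 := by
        rw [abs_div, abs_of_pos (Real.exp_pos t), div_lt_one (Real.exp_pos t)]
        exact (hU1 _ ht).2
      have h3 := pow_lt h2 (show p ≠ 0 by omega)
      have e1 : Real.exp t ^ p - φ (Real.exp t) ^ p =
          Real.exp t ^ p * (1 - (φ (Real.exp t) / Real.exp t) ^ p) := by
        rw [div_pow]
        field_simp
      refine ⟨by rw [e1]; positivity, ?_⟩
      unfold yv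
      rw [e1, Real.log_mul hAp.ne' (by positivity), Real.log_mul hE.ne' h3.ne', ← Real.exp_nat_mul,
        Real.log_exp]
      ring) S
  have hfin := ae_of_exp' (P := fun x : ℝ => x ∈ U →
    Pt (fun p => ⌊A x * (x ^ p - φ x ^ p)⌋₊) (Real.exp Real.eulerMascheroniConstant / Real.log x) S) (by
    filter_upwards [hlaw] with t ht hx
    rw [Real.log_exp]
    exact ht hx)
  filter_upwards [hfin] with x hx h1
  exact hx (by linarith [(hU1 x h1).1]) h1

end Pool.Agent.J6H88.PC
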