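import Mathlib
import Pool.Agent.J6H88.PC.Opn

set_option autoImplicit false

/-!
# The statements along parametrized curves
-/

namespace Pool.Agent.J6H88.PC

open Finset Filter Topology MeasureTheory
open Pool.Agent.TH888.R

/-- **The statements for `(α ^ p - β ^ p) / (α - β)` at almost every parameter of a curve.** -/
theorem pt_par (S : Set ℕ) {I : Set ℝ} (hI : IsOpen I) {α β : ℝ → ℝ} (hα : ContDiffOn ℝ 2 α I)
    (hβ : ContDiffOn ℝ 2 β I) (hαβ : ∀ s ∈ I, 1 < α s ∧ |β s| < α s) (hd : ∀ s ∈ I, deriv α s ≠ 0) :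
    ∀ᵐ s : ℝ, s ∈ I →
      Pt (fun p => ⌊(α s ^ p - β s ^ p) / (α s - β s)⌋₊)
        (Real.exp Real.eulerMascheroniConstant / Real.log (α s)) S := by
  set B : Set ℝ := {s | ¬ (s ∈ I → Pt (fun p => ⌊(α s ^ p - β s ^ p) / (α s - β s)⌋₊)
        (Real.exp Real.eulerMascheroniConstant / Real.log (α s)) S)} with hB
  change volume B = 0
  refine measure_null_of_locally_null B fun s0 hs0 => ?_
  have hs0I : s0 ∈ I := by
    by_contra h
    exact hs0 fun h' => absurd h' h
  have hcd : ∀ s ∈ I, ContDiffAt ℝ 2 α s := fun s hs => hα.contDiffAt (hI.mem_nhds hs)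
  have hder : ∀ s ∈ I, HasDerivAt α (deriv α s) s := fun s hs =>
    ((hcd s hs).differentiableAt (by norm_num)).hasDerivAt
  have hstr : HasStrictDerivAt α (deriv α s0) s0 := (hcd s0 hs0I).hasStrictDerivAt (by norm_num)
  obtain ⟨e, hes, hei, hee⟩ : ∃ e : OpenPartialHomeomorph ℝ ℝ, s0 ∈ e.source ∧ e.source ⊆ I ∧
      ∀ s, e s = α s := by
    let e0 := (hstr.hasStrictFDerivAt_equiv (hd s0 hs0I)).toOpenPartialHomeomorph α
    have h0 : s0 ∈ e0.source := (hstr.hasStrictFDerivAt_equiv (hd s0 hs0I)).mem_toOpenPartialHomeomorph_source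
    refine ⟨e0.restrOpen I hI, ⟨h0, hs0I⟩, fun s hs => ?_, fun s => rfl⟩
    rw [OpenPartialHomeomorph.restrOpen_source] at hs
    exact hs.2
  have hsy : ∀ a ∈ e.target, e.symm a ∈ I := fun a ha => hei (e.map_target ha)
  have hαs : ∀ a ∈ e.target, α (e.symm a) = a := fun a ha => by
    rw [← hee]
    exact e.right_inv ha
  have hesy : ContDiffOn ℝ 2 e.symm e.target := by
    intro a ha
    refine ContDiffAt.contDiffWithinAt ?_
    have hI' := hsy a ha
    refine e.contDiffAt_symm_deriv (hd _ hI') ha ?_ ?_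
    · refine (hder _ hI').congr_of_eventuallyEq ?_
      exact Eventually.of_forall fun s => hee s
    · refine (hcd _ hI').congr_of_eventuallyEq ?_
      exact Eventually.of_forall fun s => hee s
  have hφ : ContDiffOn ℝ 2 (fun a => β (e.symm a)) e.target := hβ.comp hesy fun a ha => hsy a ha
  have hcond : ∀ a ∈ e.target, 1 < a ∧ |β (e.symm a)| < a := fun a ha => by
    have h := hαβ _ (hsy a ha)
    rw [hαs a ha] at h
    exact h
  have hpos : ∀ a ∈ e.target, 0 < a - β (e.symm a) := fun a ha => by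
    have h1 := (hcond a ha).2
    have h2 := le_abs_self (β (e.symm a))
    linarith
  have key := pt_phi S e.open_target hφ (A := fun a => 1 / (a - β (e.symm a)))
    (ContDiffOn.div contDiffOn_const (contDiffOn_id.sub hφ) fun a ha => (hpos a ha).ne') hcond
    (fun a ha => by have := hpos a ha; positivity)
  set N : Set ℝ := {a | ¬ (a ∈ e.target → Pt (fun p => ⌊1 / (a - β (e.symm a)) * (a ^ p - β (e.symm a) ^ p)⌋₊)
    (Real.exp Real.eulerMascheroniConstant / Real.log a) S)} with hN
  have hN0 : volume N = 0 := key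
  have hNt : N ⊆ e.target := fun a ha => by
    by_contra h
    exact ha fun h' => absurd h' h
  have himg : volume (e.symm '' N) = 0 :=
    addHaar_image_eq_zero_of_differentiableOn_of_addHaar_eq_zero volume
      ((hesy.differentiableOn (by norm_num)).mono hNt) hN0
  refine ⟨B ∩ e.source, ?_, measure_mono_null ?_ himg⟩
  · exact inter_mem self_mem_nhdsWithin (mem_nhdsWithin_of_mem_nhds (e.open_source.mem_nhds hes))
  · rintro s ⟨hsB, hse⟩
    have h1 : e.symm (α s) = s := by rw [← hee]; exact e.left_inv hse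
    have h2 : α s ∈ e.target := by rw [← hee]; exact e.map_source hse
    refine ⟨α s, fun h3 => hsB fun _ => ?_, h1⟩
    have h4 := h3 h2
    rw [h1] at h4
    simp only [one_div_mul_eq_div] at h4
    exact h4

end Pool.Agent.J6H88.PC
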